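import Pool.Agent.H223R3.Tree.Pack

set_option autoImplicit false

namespace R776.TP

open Finset

/-- Packing a sequence of trees one after the other with the Erdős–Sós bound. -/
theorem pack_seq {V : Type*} [Finite V] [Nonempty V] (G : SimpleGraph V) (a : ℕ → ℕ)
    (T : (j : ℕ) → SimpleGraph (Fin (a j + 1))) (m : ℕ) (hT : ∀ j, j < m → (T j).IsTree)
    (h : ∀ j, j < m → 1 ≤ a j →
      (a j - 1) * Nat.card V + 2 * ∑ i ∈ range j, a i < 2 * G.edgeSet.ncard) :
    ∃ f : (j : ℕ) → Fin (a j + 1) → V,
      (∀ j, j < m → Function.Injective (f j) ∧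
        ∀ x y, (T j).Adj x y → G.Adj (f j x) (f j y)) ∧
      (∀ i j, i < m → j < m → i ≠ j → ∀ (x y : Fin (a i + 1)) (z w : Fin (a j + 1)),
        (T i).Adj x y → (T j).Adj z w → s(f i x, f i y) ≠ s(f j z, f j w)) ∧
      ∃ R : Set (Sym2 V), R.ncard ≤ ∑ i ∈ range m, a i ∧
        ∀ j, j < m → ∀ x y, (T j).Adj x y → s(f j x, f j y) ∈ R := by
  classical
  induction m with
  | zero =>
    refine ⟨fun _ _ => Classical.arbitrary V, ?_, ?_, ∅, ?_, ?_⟩
    · intro j hj; omega
    · intro i j hi; omega
    · simp
    · intro j hj; omega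
  | succ m ih =>
    obtain ⟨f, f1, f2, R, R1, R2⟩ := ih (fun j hj => hT j (by omega)) (fun j hj => h j (by omega))
    obtain ⟨g, g1, g2⟩ : ∃ g : Fin (a m + 1) → V, Function.Injective g ∧
        ∀ x y, (T m).Adj x y → G.Adj (g x) (g y) ∧ s(g x, g y) ∉ R := by
      rcases Nat.eq_zero_or_pos (a m) with h0 | h0
      · refine ⟨fun _ => Classical.arbitrary V, ?_, ?_⟩
        · intro x y _
          apply Fin.ext
          have := x.2; have := y.2; omega
        · intro x y hxy
          exact absurd (Fin.ext (by have := x.2; have := y.2; omega)) hxy.ne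
      · have hlt := h m (by omega) h0
        have hdel := H223R3.Tree.ncard_deleteEdges G R
        have hes : (a m + 1 - 2) * Nat.card V < 2 * (G.deleteEdges R).edgeSet.ncard := by
          have e1 : a m + 1 - 2 = a m - 1 := by omega
          rw [e1]; omega
        obtain ⟨g, g1, g2⟩ := H223R3.Tree.es_ncard (G.deleteEdges R) (a m + 1) (by omega) (T m)
          (hT m (by omega)) hes
        refine ⟨g, g1, fun x y hxy => ?_⟩
        have := g2 x y hxy
        rw [SimpleGraph.deleteEdges_adj] at this
        exact this
    refine ⟨Function.update f m g, ?_, ?_, R ∪ (Sym2.map g) '' (T m).edgeSet, ?_, ?_⟩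
    · intro j hj
      by_cases hjm : j = m
      · subst hjm
        rw [Function.update_self]
        exact ⟨g1, fun x y hxy => (g2 x y hxy).1⟩
      · rw [Function.update_of_ne hjm]
        exact f1 j (by omega)
    · intro i j hi hj hne x y z w hxy hzw
      by_cases him : i = m
      · subst him
        have hji : j ≠ i := fun h => hne h.symm
        rw [Function.update_self, Function.update_of_ne hji]
        intro he
        exact (g2 x y hxy).2 (he ▸ R2 j (by omega) z w hzw)
      · by_cases hjm : j = m
        · subst hjm
          rw [Function.update_self, Function.update_of_ne him]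
          intro he
          exact (g2 z w hzw).2 (he ▸ R2 i (by omega) x y hxy)
        · rw [Function.update_of_ne him, Function.update_of_ne hjm]
          exact f2 i j (by omega) (by omega) hne x y z w hxy hzw
    · have h1 := H223R3.Tree.card_used (i := a m + 1) (by omega) (T m) (hT m (by omega)) g
      have h2 := Set.ncard_union_le R ((Sym2.map g) '' (T m).edgeSet)
      rw [Finset.sum_range_succ]
      omega
    · intro j hj x y hxy
      by_cases hjm : j = m
      · subst hjm
        rw [Function.update_self]
        exact Or.inr ⟨s(x, y), hxy, rfl⟩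
      · rw [Function.update_of_ne hjm]
        exact Or.inl (R2 j (by omega) x y hxy)

theorem top_ncard (N : ℕ) : 2 * (⊤ : SimpleGraph (Fin N)).edgeSet.ncard = N * (N - 1) := by
  classical
  have h : (⊤ : SimpleGraph (Fin N)).edgeSet.ncard = N.choose 2 := by
    rw [← SimpleGraph.coe_edgeFinset, Set.ncard_coe_finset, SimpleGraph.card_edgeFinset_top_eq_card_choose_two,
      Fintype.card_fin]
  rw [h, Nat.choose_two_right, Nat.mul_div_cancel' (Nat.even_mul_pred_self N).two_dvd]

end R776.TP
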