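import Pool.Agent.R776.TP.Pack

set_option autoImplicit false

namespace R776.TP

open Finset

/-- Many edge-disjoint copies of a tree in a regular graph. -/
theorem regular_pack {W V : Type} [Finite W] [Finite V] (T : SimpleGraph W) (hT : T.IsTree)
    (G : SimpleGraph V) (D : ℕ) (hE : 2 * G.edgeSet.ncard = D * Nat.card V)
    (hm : 1 ≤ T.edgeSet.ncard) (q : ℕ)
    (hq : 1 ≤ q → (T.edgeSet.ncard - 1) * Nat.card V + 2 * T.edgeSet.ncard * (q - 1) <
      D * Nat.card V) :
    ∃ f : Fin q → (T →g G), (∀ i, Function.Injective (f i)) ∧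
      ∀ i j, i ≠ j → ∀ e ∈ T.edgeSet, ∀ e' ∈ T.edgeSet,
        Sym2.map (f i) e ≠ Sym2.map (f j) e' := by
  classical
  rcases Nat.eq_zero_or_pos q with h0 | h0
  · subst h0
    exact ⟨fun i => i.elim0, fun i => i.elim0, fun i => i.elim0⟩
  have hq' := hq h0
  haveI := Fintype.ofFinite W
  haveI := Fintype.ofFinite V
  have hVpos : 0 < Nat.card V := by
    rcases Nat.eq_zero_or_pos (Nat.card V) with h | h
    · rw [h] at hq'; simp at hq'
    · exact h
  have hV : Nonempty V := (Nat.card_pos_iff.1 hVpos).1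
  obtain ⟨m, hmdef⟩ : ∃ m, m = T.edgeSet.ncard := ⟨_, rfl⟩
  have hcard : Fintype.card W = m + 1 := by
    have h2 : T.edgeFinset.card + 1 = Fintype.card W := hT.card_edgeFinset
    rw [hmdef, ← SimpleGraph.coe_edgeFinset, Set.ncard_coe_finset, h2]
  rw [← hmdef] at hq' hm
  let e : Fin (m + 1) ≃ W := (Fintype.equivFinOfCardEq hcard).symm
  obtain ⟨f, f1, f2, -⟩ := pack_seq G (fun _ => m) (fun _ => T.comap e) q (by
    intro j _
    exact (SimpleGraph.Iso.comap e T).isTree_iff.2 hT) (by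
    intro j hj _
    simp only [Finset.sum_const, Finset.card_range, smul_eq_mul]
    rw [hE]
    have : j * m ≤ (q - 1) * m := Nat.mul_le_mul_right _ (by omega)
    nlinarith)
  refine ⟨fun i => ⟨fun w => f i (e.symm w), ?_⟩, ?_, ?_⟩
  · intro a b hab
    apply (f1 i i.2).2
    simp only [SimpleGraph.comap_adj, Equiv.apply_symm_apply]
    exact hab
  · intro i
    exact ((f1 i i.2).1).comp e.symm.injective
  · intro i j hij x hx y hy
    induction x with
    | _ a b =>
      induction y with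
      | _ c d =>
        simp only [Sym2.map_mk]
        rw [SimpleGraph.mem_edgeSet] at hx hy
        exact f2 i j i.2 j.2 (fun h => hij (Fin.ext h)) (e.symm a) (e.symm b) (e.symm c)
          (e.symm d) (by simpa using hx) (by simpa using hy)

theorem regular_edges {V : Type} [Fintype V] (G : SimpleGraph V) [DecidableRel G.Adj] (D : ℕ)
    (h : G.IsRegularOfDegree D) : 2 * G.edgeSet.ncard = D * Nat.card V := by
  classical
  have h1 := G.sum_degrees_eq_twice_card_edges
  rw [← SimpleGraph.coe_edgeFinset, Set.ncard_coe_finset, ← h1,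
    Finset.sum_congr rfl (fun v _ => h v), Finset.sum_const, Finset.card_univ, smul_eq_mul,
    Nat.card_eq_fintype_card, mul_comm]

/-- In a `D`-regular graph with `D ≥ m` the copies of a tree with `m` edges cover at least the
fraction `(D - m + 1) / D` of the edges. -/
theorem regular_cover {W V : Type} [Finite W] [Fintype V] (T : SimpleGraph W) (hT : T.IsTree)
    (G : SimpleGraph V) [DecidableRel G.Adj] (D : ℕ) (h : G.IsRegularOfDegree D)
    (hm : 1 ≤ T.edgeSet.ncard) (hD : T.edgeSet.ncard ≤ D) :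
    ∃ (q : ℕ) (f : Fin q → (T →g G)), (∀ i, Function.Injective (f i)) ∧
      (∀ i j, i ≠ j → ∀ e ∈ T.edgeSet, ∀ e' ∈ T.edgeSet,
        Sym2.map (f i) e ≠ Sym2.map (f j) e') ∧
      (D + 1 - T.edgeSet.ncard) * Fintype.card V ≤ 2 * T.edgeSet.ncard * q := by
  classical
  obtain ⟨m, hmdef⟩ : ∃ m, m = T.edgeSet.ncard := ⟨_, rfl⟩
  have hE := regular_edges G D h
  have hex : ∃ q, (D + 1 - m) * Fintype.card V ≤ 2 * m * q := by
    refine ⟨(D + 1 - m) * Fintype.card V, ?_⟩
    rw [hmdef]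
    nlinarith [Nat.zero_le ((D + 1 - T.edgeSet.ncard) * Fintype.card V)]
  obtain ⟨q, hq1, hq2⟩ : ∃ q, (D + 1 - m) * Fintype.card V ≤ 2 * m * q ∧
      ∀ q', q' < q → ¬ (D + 1 - m) * Fintype.card V ≤ 2 * m * q' :=
    ⟨Nat.find hex, Nat.find_spec hex, fun q' hq' => Nat.find_min hex hq'⟩
  obtain ⟨f, f1, f2⟩ := regular_pack T hT G D hE hm q (by
    intro h1
    have h2 := hq2 (q - 1) (by omega)
    rw [← hmdef, Nat.card_eq_fintype_card]
    rw [← hmdef] at hm hD
    obtain ⟨m', rfl⟩ : ∃ m', m = m' + 1 := ⟨m - 1, by omega⟩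
    obtain ⟨c, rfl⟩ : ∃ c, D = m' + 1 + c := ⟨D - (m' + 1), by omega⟩
    have e1 : m' + 1 + c + 1 - (m' + 1) = c + 1 := by omega
    have e2 : m' + 1 - 1 = m' := by omega
    rw [e1] at h2
    rw [e2]
    nlinarith)
  refine ⟨q, f, f1, f2, ?_⟩
  rw [← hmdef]
  exact hq1

end R776.TP
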